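import Mathlib

/-!
# Triangle-free colourings of pairs of `ω₁` omitting finitely many colours

* If `2^ω` has an uncountable subset every predictable part of which is countable (in particular
  under CH), then there is a triangle-free colouring `c : [ω₁]² → ω`, all of whose colour classes
  are bipartite, such that on every uncountable set all but finitely many colours occur.
* If the splitting number is larger than `ℵ₁`, then no colouring `c : [ω₁]² → ω` with infinitely
  many colour classes of chromatic number at most a fixed `m` has this property.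
-/

set_option autoImplicit false

namespace Pool.Agent.Results.MP_670a4f_lc.BoundedChromatic

open Cardinal Set

/-- the countable ordinals -/
abbrev W1 : Type 1 := {o : Ordinal.{0} // o < (Cardinal.aleph 1).ord}

/-- no monochromatic triangle -/
def TriangleFree (c : Sym2 W1 → ℕ) : Prop :=
  ∀ a b d : W1, a ≠ b → b ≠ d → a ≠ d → ¬ (c s(a, b) = c s(b, d) ∧ c s(b, d) = c s(a, d))

/-- the colours which do not occur on pairs of distinct elements of `X` -/
def missing (c : Sym2 W1 → ℕ) (X : Set W1) : Set ℕ :=
  {n : ℕ | ¬ ∃ a ∈ X, ∃ b ∈ X, a ≠ b ∧ c s(a, b) = n}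

/-- the graph of colour `k` has a proper vertex colouring with `m` colours -/
def ClassColorable (c : Sym2 W1 → ℕ) (k m : ℕ) : Prop :=
  ∃ f : W1 → Fin m, ∀ a b : W1, a ≠ b → c s(a, b) = k → f a ≠ f b

/-- the points of `2^ω` whose bits at the places in `A` are predicted by `h` from the earlier
bits -/
def predicted (A : Set ℕ) (h : ∀ n : ℕ, (Fin n → Bool) → Bool) : Set (ℕ → Bool) :=
  {x | ∀ n ∈ A, x n = h n (fun i => x i)}

/-- there is an uncountable set of reals every predictable part of which is countable
(Luzin sets and Sierpiński sets have this property) -/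
def Unpredictable : Prop :=
  ∃ L : Set (ℕ → Bool), ¬ L.Countable ∧
    ∀ (A : Set ℕ) (h : ∀ n : ℕ, (Fin n → Bool) → Bool), A.Infinite →
      (L ∩ predicted A h).Countable

/-- the splitting number is larger than `ℵ₁` -/
def SplittingGtAleph1 : Prop :=
  ∀ S : Set (Set ℕ), Cardinal.mk S ≤ Cardinal.aleph 1 →
    ∃ A : Set ℕ, A.Infinite ∧ ∀ s ∈ S, (A ∩ s).Finite ∨ (A \ s).Finite

theorem mk_W1 : Cardinal.mk W1 = Cardinal.lift.{1} (Cardinal.aleph.{0} 1) := by
  have h := Cardinal.mk_Iio_ordinal (Cardinal.aleph.{0} 1).ord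
  rw [Cardinal.card_ord] at h
  exact h

theorem W1_not_countable : ¬ Countable W1 := by
  rw [← Cardinal.mk_le_aleph0_iff, mk_W1]
  simp

/-- initial segments of `ω₁` are countable -/
theorem Iio_countable (β : W1) : (Set.Iio β).Countable := by
  have h : β.1.card < Cardinal.aleph.{0} 1 := Cardinal.lt_ord.1 β.2
  have hβ : β.1.card ≤ Cardinal.aleph0 :=
    Order.lt_succ_iff.1 (h.trans_eq Cardinal.succ_aleph0.symm)
  have h1 : (Set.Iio β.1).Countable := by
    rw [← Cardinal.le_aleph0_iff_set_countable, Cardinal.mk_Iio_ordinal, Cardinal.lift_le_aleph0]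
    exact hβ
  have h2 : Set.Iio β ⊆ (Subtype.val : W1 → Ordinal.{0}) ⁻¹' (Set.Iio β.1) := fun a ha => ha
  exact (h1.preimage_of_injOn Subtype.val_injective.injOn).mono h2

/-- an uncountable set of reals contains an injective family indexed by the countable ordinals -/
theorem exists_inj (L : Set (ℕ → Bool)) (hL : ¬ L.Countable) :
    ∃ r : W1 → (ℕ → Bool), Function.Injective r ∧ ∀ a, r a ∈ L := by
  have h1 : Cardinal.lift.{0} (Cardinal.mk W1) ≤ Cardinal.lift.{1} (Cardinal.mk L) := by
    rw [mk_W1, Cardinal.lift_id', Cardinal.lift_le, ← Cardinal.succ_aleph0, Order.succ_le_iff,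
      ← not_le, Cardinal.mk_le_aleph0_iff]
    exact hL
  obtain ⟨f⟩ := Cardinal.lift_mk_le'.1 h1
  exact ⟨fun a => (f a : ℕ → Bool), fun a b hab => f.injective (Subtype.ext hab),
    fun a => (f a).2⟩

/-- the colouring by first differences -/
noncomputable def delta (r : W1 → (ℕ → Bool)) : Sym2 W1 → ℕ :=
  Sym2.lift ⟨fun a b => PiNat.firstDiff (r a) (r b), fun a b => PiNat.firstDiff_comm _ _⟩

theorem positive (hU : Unpredictable) : ∃ c : Sym2 W1 → ℕ, TriangleFree c ∧
    (∀ k, ClassColorable c k 2) ∧
    ∀ X : Set W1, ¬ X.Countable → (missing c X).Finite := by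
  classical
  obtain ⟨L, hL, hpred⟩ := hU
  obtain ⟨r, hr, hrL⟩ := exists_inj L hL
  have hd : ∀ a b : W1, a ≠ b → r a (delta r s(a, b)) ≠ r b (delta r s(a, b)) := by
    intro a b hab
    exact PiNat.apply_firstDiff_ne (fun h => hab (hr h))
  have hlt : ∀ a b : W1, ∀ n, n < delta r s(a, b) → r a n = r b n := by
    intro a b n hn
    exact PiNat.apply_eq_of_lt_firstDiff hn
  refine ⟨delta r, ?_, ?_, ?_⟩
  · rintro a b d hab hbd had ⟨h1, h2⟩
    have e1 := hd a b hab
    have e2 := hd b d hbd
    have e3 := hd a d had
    rw [h1] at e1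
    rw [← h2] at e3
    revert e1 e2 e3
    generalize r a (delta r s(b, d)) = p
    generalize r b (delta r s(b, d)) = q
    generalize r d (delta r s(b, d)) = t
    cases p <;> cases q <;> cases t <;> simp
  · intro k
    refine ⟨fun a => if r a k then 1 else 0, fun a b hab hk => ?_⟩
    have e1 := hd a b hab
    rw [hk] at e1
    intro h
    apply e1
    cases h1 : r a k <;> cases h2 : r b k <;> simp [h1, h2] at h ⊢
  · intro X hX
    by_contra hfin
    have hinf : (missing (delta r) X).Infinite := hfin
    -- the predictor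
    let h : ∀ n : ℕ, (Fin n → Bool) → Bool := fun n s =>
      if H : ∃ a ∈ X, (fun i : Fin n => r a i) = s then r H.choose n else false
    have hc := hpred _ h hinf
    apply hX
    have hsub : X ⊆ r ⁻¹' (L ∩ predicted (missing (delta r) X) h) := by
      intro a ha
      refine ⟨hrL a, fun n hn => ?_⟩
      have H : ∃ b ∈ X, (fun i : Fin n => r b i) = fun i : Fin n => r a i := ⟨a, ha, rfl⟩
      have hh : h n (fun i => r a i) = r H.choose n := dif_pos H
      rw [hh]
      obtain ⟨hb, hbe⟩ := H.choose_spec
      set b := H.choose with hbdef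
      by_contra hne
      have hab : a ≠ b := fun e => hne (by rw [← e])
      apply hn
      refine ⟨a, ha, b, hb, hab, ?_⟩
      have hge : n ≤ delta r s(a, b) := by
        by_contra hlt'
        push Not at hlt'
        have := hd a b hab
        exact this (congrFun hbe ⟨_, hlt'⟩).symm
      rcases hge.lt_or_eq with hlt' | heq
      · exact absurd (hlt a b n hlt') hne
      · exact heq.symm
    exact (hc.preimage_of_injOn hr.injOn).mono hsub

/-- predictable sets are closed -/
theorem predicted_closed (A : Set ℕ) (h : ∀ n : ℕ, (Fin n → Bool) → Bool) :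
    IsClosed (predicted A h) := by
  have : predicted A h = ⋂ n ∈ A, {x : ℕ → Bool | x n = h n (fun i => x i)} := by
    ext x; simp [predicted]
  rw [this]
  refine isClosed_biInter fun n _ => ?_
  refine isClosed_eq (continuous_apply n) ?_
  have h2 : Continuous (h n) := continuous_of_discreteTopology
  exact h2.comp (continuous_pi fun i => continuous_apply _)

/-- the complement of a predictable set is dense -/
theorem predicted_compl_dense (A : Set ℕ) (h : ∀ n : ℕ, (Fin n → Bool) → Bool)
    (hA : A.Infinite) : Dense (predicted A h)ᶜ := by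
  intro x
  rw [mem_closure_iff_nhds]
  intro U hU
  -- a basic neighbourhood
  obtain ⟨N, hN⟩ : ∃ N : ℕ, ∀ y : ℕ → Bool, (∀ i < N, y i = x i) → y ∈ U := by
    rw [nhds_pi, Filter.mem_pi] at hU
    obtain ⟨I, hI, t, ht, hsub⟩ := hU
    obtain ⟨N, hN⟩ := hI.bddAbove
    refine ⟨N + 1, fun y hy => hsub fun i hi => ?_⟩
    rw [hy i (Nat.lt_succ_of_le (hN hi))]
    exact mem_of_mem_nhds (ht i)
  obtain ⟨n, hnA, hnN⟩ := hA.exists_gt N
  let y : ℕ → Bool := fun j => if j = n then !(h n (fun i => x i)) else x j
  refine ⟨y, hN y (fun j hj => ?_), ?_⟩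
  · have : j ≠ n := by omega
    simp [y, this]
  · intro hy
    have h1 := hy n hnA
    have h2 : (fun i : Fin n => y i) = fun i : Fin n => x i := by
      funext i
      have : (i : ℕ) ≠ n := by omega
      simp [y, this]
    rw [h2] at h1
    simp [y] at h1

/-- countably many predictable sets do not cover `2^ω` -/
theorem exists_not_predicted (P : ℕ → Set (ℕ → Bool))
    (hP : ∀ i, ∃ (A : Set ℕ) (h : ∀ n : ℕ, (Fin n → Bool) → Bool), A.Infinite ∧
      P i = predicted A h) : ∃ x : ℕ → Bool, ∀ i, x ∉ P i := by
  have hclosed : ∀ i, IsClosed (P i) := by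
    intro i
    obtain ⟨A, h, hA, e⟩ := hP i
    rw [e]
    exact predicted_closed A h
  have hdense : ∀ i, Dense (P i)ᶜ := by
    intro i
    obtain ⟨A, h, hA, e⟩ := hP i
    rw [e]
    exact predicted_compl_dense A h hA
  have hd := dense_iInter_of_isOpen (fun i => (hclosed i).isOpen_compl) hdense
  obtain ⟨x, hx⟩ := hd.nonempty
  exact ⟨x, fun i hi => (mem_iInter.1 hx i) hi⟩

/-- a Luzin set exists: an uncountable subset of `2^ω` which meets every nowhere dense set in a
countable set -/
def LuzinSetExists : Prop :=
  ∃ L : Set (ℕ → Bool), ¬ L.Countable ∧ ∀ N : Set (ℕ → Bool), IsNowhereDense N →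
    (L ∩ N).Countable

theorem unpredictable_of_luzin (hL : LuzinSetExists) : Unpredictable := by
  obtain ⟨L, h1, h2⟩ := hL
  refine ⟨L, h1, fun A h hA => h2 _ ?_⟩
  rw [IsNowhereDense, (predicted_closed A h).closure_eq, interior_eq_empty_iff_dense_compl]
  exact predicted_compl_dense A h hA

theorem unpredictable_of_CH (hCH : Cardinal.continuum.{0} = Cardinal.aleph.{0} 1) :
    Unpredictable := by
  classical
  -- the set of predictors
  let Pr : Type := {A : Set ℕ // A.Infinite} × (∀ n : ℕ, (Fin n → Bool) → Bool)
  have hPr : Cardinal.mk Pr ≤ Cardinal.continuum := by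
    have h1 : Cardinal.mk {A : Set ℕ // A.Infinite} ≤ Cardinal.continuum := by
      calc Cardinal.mk {A : Set ℕ // A.Infinite} ≤ Cardinal.mk (Set ℕ) :=
            Cardinal.mk_le_of_injective Subtype.val_injective
        _ = Cardinal.continuum := by simp
    have h2 : Cardinal.mk (∀ n : ℕ, (Fin n → Bool) → Bool) ≤ Cardinal.continuum := by
      rw [Cardinal.mk_pi]
      calc Cardinal.prod (fun n : ℕ => Cardinal.mk ((Fin n → Bool) → Bool))
          ≤ Cardinal.prod (fun _ : ℕ => Cardinal.aleph0) := by
            apply Cardinal.prod_le_prod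
            intro n
            exact (Cardinal.lt_aleph0_of_finite _).le
        _ = Cardinal.continuum := by simp
    calc Cardinal.mk Pr = Cardinal.mk {A : Set ℕ // A.Infinite} *
          Cardinal.mk (∀ n : ℕ, (Fin n → Bool) → Bool) := by
            rw [Cardinal.mul_def]
      _ ≤ Cardinal.continuum * Cardinal.continuum := mul_le_mul' h1 h2
      _ = Cardinal.continuum := Cardinal.continuum_mul_self
  have hle : Cardinal.lift.{1} (Cardinal.mk Pr) ≤ Cardinal.lift.{0} (Cardinal.mk W1) := by
    rw [mk_W1, Cardinal.lift_id', Cardinal.lift_le, ← hCH]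
    exact hPr
  obtain ⟨g⟩ := Cardinal.lift_mk_le'.1 hle
  -- for each `β` a real which is not predicted by the predictors with smaller code
  have hex : ∀ β : W1, ∃ x : ℕ → Bool, ∀ p : Pr, g p < β → x ∉ predicted p.1.1 p.2 := by
    intro β
    have hcount : (Set.Iio β).Countable := Iio_countable β
    have hS : {p : Pr | g p < β}.Countable :=
      (hcount.preimage_of_injOn g.injective.injOn).mono (fun p hp => hp)
    rcases Set.eq_empty_or_nonempty {p : Pr | g p < β} with he | hne
    · refine ⟨fun _ => false, fun p hp => ?_⟩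
      have : p ∈ {p : Pr | g p < β} := hp
      rw [he] at this
      exact absurd this (Set.notMem_empty _)
    · obtain ⟨e, he⟩ := hS.exists_eq_range hne
      obtain ⟨x, hx⟩ := exists_not_predicted (fun i => predicted (e i).1.1 (e i).2)
        (fun i => ⟨(e i).1.1, (e i).2, (e i).1.2, rfl⟩)
      refine ⟨x, fun p hp => ?_⟩
      have : p ∈ Set.range e := by rw [← he]; exact hp
      obtain ⟨i, rfl⟩ := this
      exact hx i
  choose r hr using hex
  have hsmall : ∀ p : Pr, {β : W1 | r β ∈ predicted p.1.1 p.2}.Countable := by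
    intro p
    have hsub : {β : W1 | r β ∈ predicted p.1.1 p.2} ⊆ Set.Iic (g p) := by
      intro β hβ
      by_contra hlt
      exact hr β p (not_le.1 hlt) hβ
    refine Set.Countable.mono hsub ?_
    have h3 : (Set.Iio (g p)).Countable := Iio_countable _
    rw [← Set.Iio_insert]
    exact h3.insert _
  refine ⟨Set.range r, ?_, ?_⟩
  · intro hcount
    apply W1_not_countable
    rw [← Set.countable_univ_iff]
    have : (Set.univ : Set W1) = ⋃ x ∈ Set.range r, {β | r β = x} := by
      ext β
      simp only [Set.mem_univ, Set.mem_iUnion, true_iff]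
      exact ⟨r β, ⟨β, rfl⟩, rfl⟩
    rw [this]
    refine hcount.biUnion fun x hx => ?_
    refine Set.Countable.mono ?_ (hsmall (⟨⟨Set.univ, Set.infinite_univ⟩, fun n _ => x n⟩ : Pr))
    intro β hβ n _
    have hβ' : r β = x := hβ
    show r β n = x n
    rw [hβ']
  · intro A h hA
    have := (hsmall (⟨⟨A, hA⟩, h⟩ : Pr)).image r
    refine this.mono ?_
    rintro x ⟨⟨β, rfl⟩, hβ⟩
    exact ⟨β, hβ, rfl⟩

theorem negative (hs : SplittingGtAleph1) (c : Sym2 W1 → ℕ) (m : ℕ)
    (hc : {k | ClassColorable c k m}.Infinite) :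
    ∃ X : Set W1, ¬ X.Countable ∧ (missing c X).Infinite := by
  classical
  let κ := hc.natEmbedding
  have hκ : ∀ i, ClassColorable c (κ i).1 m := fun i => (κ i).2
  choose f hf using hκ
  let S : W1 × Fin m → Set ℕ := fun q => {i | f i q.1 = q.2}
  have hcard : Cardinal.mk (Set.range S) ≤ Cardinal.aleph 1 := by
    have h1 : Cardinal.lift.{1} (Cardinal.mk (Set.range S)) ≤
        Cardinal.lift.{0} (Cardinal.mk (W1 × Fin m)) := Cardinal.mk_range_le_lift
    have h2 : Cardinal.mk (W1 × Fin m) ≤ Cardinal.lift.{1} (Cardinal.aleph.{0} 1) := by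
      have : Cardinal.mk (W1 × Fin m) = Cardinal.lift.{1} (Cardinal.aleph.{0} 1) * (m : Cardinal) := by
        simp [Cardinal.mk_prod, mk_W1]
      rw [this]
      calc Cardinal.lift.{1} (Cardinal.aleph.{0} 1) * (m : Cardinal)
          ≤ Cardinal.lift.{1} (Cardinal.aleph.{0} 1) * Cardinal.lift.{1} (Cardinal.aleph.{0} 1) := by
            gcongr
            calc (m : Cardinal) ≤ Cardinal.aleph0 := (Cardinal.natCast_lt_aleph0).le
              _ ≤ Cardinal.lift.{1} (Cardinal.aleph.{0} 1) := by
                rw [Cardinal.aleph0_le_lift]; exact Cardinal.aleph0_le_aleph 1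
        _ = Cardinal.lift.{1} (Cardinal.aleph.{0} 1) := by
            apply Cardinal.mul_eq_self
            rw [Cardinal.aleph0_le_lift]; exact Cardinal.aleph0_le_aleph 1
    rw [Cardinal.lift_id'] at h1
    exact Cardinal.lift_le.1 (h1.trans h2)
  obtain ⟨A, hA, hsplit⟩ := hs (Set.range S) hcard
  -- every point chooses an eventual value
  have hev : ∀ β : W1, ∃ q : Fin m × ℕ, ∀ i ∈ A, q.2 ≤ i → f i β = q.1 := by
    intro β
    have hj : ∃ j : Fin m, (A ∩ S (β, j)).Infinite := by
      by_contra hno
      push Not at hno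
      apply hA
      have hun : A = ⋃ j : Fin m, A ∩ S (β, j) := by
        ext i; simp [S]
      rw [hun]
      exact Set.finite_iUnion fun j => hno j
    obtain ⟨j, hj⟩ := hj
    have hfin : (A \ S (β, j)).Finite := (hsplit _ ⟨(β, j), rfl⟩).resolve_left hj
    obtain ⟨N, hN⟩ := hfin.bddAbove
    refine ⟨(j, N + 1), fun i hi hNi => ?_⟩
    by_contra hne
    have : i ∈ A \ S (β, j) := ⟨hi, hne⟩
    have := hN this
    simp only at hNi
    omega
  choose q hq using hev
  obtain ⟨t, ht⟩ : ∃ t : Fin m × ℕ, ¬ (q ⁻¹' {t}).Countable := by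
    by_contra hno
    push Not at hno
    apply W1_not_countable
    rw [← Set.countable_univ_iff]
    have : (Set.univ : Set W1) = ⋃ t, q ⁻¹' {t} := by
      ext β; simp
    rw [this]
    exact Set.countable_iUnion hno
  refine ⟨q ⁻¹' {t}, ht, ?_⟩
  have hA' : (A \ {i | i < t.2}).Infinite := hA.sdiff (Set.finite_lt_nat t.2)
  have him : ((fun i => (κ i).1) '' (A \ {i | i < t.2})).Infinite := by
    refine hA'.image ?_
    intro i _ j _ hij
    exact κ.injective (Subtype.ext hij)
  refine him.mono ?_
  rintro _ ⟨i, ⟨hi, hit⟩, rfl⟩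
  rintro ⟨a, ha, b, hb, hab, hcol⟩
  apply hf i a b hab hcol
  have hti : t.2 ≤ i := by simpa using hit
  have ea : q a = t := ha
  have eb : q b = t := hb
  rw [hq a i hi (by rw [ea]; exact hti), hq b i hi (by rw [eb]; exact hti), ea, eb]

/-- For colourings whose colour classes have bounded chromatic number (for instance bipartite
classes) the question is undecidable in ZFC:

1. if there is an uncountable subset of `2^ω` with countable predictable parts, then there is a
   triangle-free `c : [ω₁]² → ω` all of whose classes are bipartite, such that on every uncountable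
   set all but finitely many colours occur;
2. such a subset exists under CH, and
3. it exists if there is a Luzin set;
4. if the splitting number is larger than `ℵ₁`, then for every `c : [ω₁]² → ω` for which
   infinitely many classes have chromatic number at most some fixed `m`, there is an uncountable
   set on which infinitely many colours do not occur. -/
theorem result :
    (Unpredictable → ∃ c : Sym2 W1 → ℕ, TriangleFree c ∧ (∀ k, ClassColorable c k 2) ∧
      ∀ X : Set W1, ¬ X.Countable → (missing c X).Finite) ∧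
    (Cardinal.continuum.{0} = Cardinal.aleph.{0} 1 → Unpredictable) ∧
    (LuzinSetExists → Unpredictable) ∧
    (SplittingGtAleph1 → ∀ (c : Sym2 W1 → ℕ) (m : ℕ), {k | ClassColorable c k m}.Infinite →
      ∃ X : Set W1, ¬ X.Countable ∧ (missing c X).Infinite) :=
  ⟨positive, unpredictable_of_CH, unpredictable_of_luzin, fun hs c m hc => negative hs c m hc⟩

end Pool.Agent.Results.MP_670a4f_lc.BoundedChromatic
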